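import Mathlib
import Pool.Agent.PDN.Stmts

/-!
# PDN: EXA, exactness of the cochain complex of a triangulation
-/

set_option autoImplicit false

namespace Pool.Agent.PDN.H21

open Pool.Agent.PDN

section

variable {V : Type} (T : Tri V)

theorem fnd {T : Tri V} {u v w : V} (h : T.f u v w) : u ≠ v ∧ v ≠ w ∧ w ≠ u :=
  ⟨T.ne h, T.ne (T.cyc h), T.ne (T.cyc (T.cyc h))⟩

theorem adj1 {T : Tri V} {u v w : V} (h : T.f u v w) : T.Adj u v := ⟨w, h⟩

theorem adj2 {T : Tri V} {u v w : V} (h : T.f u v w) : T.Adj v w := ⟨u, T.cyc h⟩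

theorem adj3 {T : Tri V} {u v w : V} (h : T.f u v w) : T.Adj w u := ⟨v, T.cyc (T.cyc h)⟩

variable [LinearOrder V]

/-- the edges -/
abbrev II : Type := {p : V × V // T.Adj p.1 p.2 ∧ p.1 < p.2}

/-- the faces -/
abbrev PP : Type := {p : V × V // ∃ w, T.f p.1 p.2 w ∧ p.1 < p.2 ∧ p.1 < w}

/-- every dart is in a face of `PP` -/
theorem ex_rep {u v w : V} (h : T.f u v w) :
    ∃ p : PP T, p.1 = (u, v) ∨ p.1 = (v, w) ∨ p.1 = (w, u) := by
  obtain ⟨h1, h2, h3⟩ := fnd h
  have c1 := T.cyc h
  have c2 := T.cyc c1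
  rcases lt_or_gt_of_ne h1 with a | a
  · rcases lt_or_gt_of_ne h3 with b | b
    · exact ⟨⟨(w, u), v, c2, b, b.trans a⟩, Or.inr (Or.inr rfl)⟩
    · exact ⟨⟨(u, v), w, h, a, b⟩, Or.inl rfl⟩
  · rcases lt_or_gt_of_ne h2 with b | b
    · exact ⟨⟨(v, w), u, c1, b, a⟩, Or.inr (Or.inl rfl)⟩
    · exact ⟨⟨(w, u), v, c2, b.trans a, b⟩, Or.inr (Or.inr rfl)⟩

theorem un_rep {u v w : V} (h : T.f u v w) (p q : PP T)
    (hp : p.1 = (u, v) ∨ p.1 = (v, w) ∨ p.1 = (w, u))
    (hq : q.1 = (u, v) ∨ q.1 = (v, w) ∨ q.1 = (w, u)) : p = q := by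
  obtain ⟨⟨a, b⟩, c, hf, hab, hac⟩ := p
  obtain ⟨⟨a', b'⟩, c', hf', hab', hac'⟩ := q
  simp only at hf hab hac hf' hab' hac' hp hq
  have c1 := T.cyc h
  have c2 := T.cyc c1
  have key : ∀ {a b c : V}, T.f a b c → a < b → a < c →
      ((a, b) = (u, v) ∨ (a, b) = (v, w) ∨ (a, b) = (w, u)) →
      (a = u ∧ b = v ∧ u < v ∧ u < w) ∨ (a = v ∧ b = w ∧ v < w ∧ v < u) ∨
        (a = w ∧ b = u ∧ w < u ∧ w < v) := by
    intro a b c hf hab hac hp
    rcases hp with hp | hp | hp
    · obtain ⟨rfl, rfl⟩ := Prod.mk.inj hp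
      have := T.uniq hf h
      subst this
      exact Or.inl ⟨rfl, rfl, hab, hac⟩
    · obtain ⟨rfl, rfl⟩ := Prod.mk.inj hp
      have := T.uniq hf c1
      subst this
      exact Or.inr (Or.inl ⟨rfl, rfl, hab, hac⟩)
    · obtain ⟨rfl, rfl⟩ := Prod.mk.inj hp
      have := T.uniq hf c2
      subst this
      exact Or.inr (Or.inr ⟨rfl, rfl, hab, hac⟩)
  have k1 := key hf hab hac hp
  have k2 := key hf' hab' hac' hq
  apply Subtype.ext
  simp only
  rcases k1 with ⟨rfl, rfl, x1, x2⟩ | ⟨rfl, rfl, x1, x2⟩ | ⟨rfl, rfl, x1, x2⟩ <;>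
    rcases k2 with ⟨y1, y2, y3, y4⟩ | ⟨y1, y2, y3, y4⟩ | ⟨y1, y2, y3, y4⟩ <;>
    first
    | (exfalso; order)
    | (rw [y1, y2])

open Classical in
/-- the face of a dart -/
noncomputable def rep {u v : V} (h : T.Adj u v) : PP T :=
  (ex_rep T h.choose_spec).choose

theorem rep_spec {u v w : V} (h : T.f u v w) :
    (rep T (adj1 h)).1 = (u, v) ∨ (rep T (adj1 h)).1 = (v, w) ∨ (rep T (adj1 h)).1 = (w, u) := by
  have h1 := (ex_rep T (adj1 h).choose_spec).choose_spec
  have h2 : (adj1 h).choose = w := T.uniq (adj1 h).choose_spec h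
  rcases h1 with h1 | h1 | h1
  · exact Or.inl h1
  · exact Or.inr (Or.inl (h1.trans (by rw [h2])))
  · exact Or.inr (Or.inr (h1.trans (by rw [h2])))

theorem rep_eq {u v w : V} (h : T.f u v w) (p : PP T)
    (hp : p.1 = (u, v) ∨ p.1 = (v, w) ∨ p.1 = (w, u)) : rep T (adj1 h) = p :=
  un_rep T h _ _ (rep_spec T h) hp

theorem rep_cyc {u v w : V} (h : T.f u v w) : rep T (adj1 h) = rep T (adj2 h) := by
  have h1 := rep_spec T (T.cyc h)
  refine rep_eq T h _ ?_
  rcases h1 with h1 | h1 | h1
  · exact Or.inr (Or.inl h1)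
  · exact Or.inr (Or.inr h1)
  · exact Or.inl h1

theorem rep_self (p : PP T) (h : T.Adj p.1.1 p.1.2) : rep T h = p := by
  obtain ⟨w, hw, _⟩ := p.2
  exact rep_eq T hw p (Or.inl rfl)

end

section

variable {V : Type} [Fintype V] [LinearOrder V] (T : Tri V) (F : Type) [Field F]

noncomputable instance instII : Fintype (II T) := Fintype.ofFinite _

noncomputable instance instPP : Fintype (PP T) := Fintype.ofFinite _

open Classical in
/-- the indicator of a dart -/
noncomputable def dd (a b : V) (i : II T) : F :=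
  (if i.1 = (a, b) then 1 else 0) - (if i.1 = (b, a) then 1 else 0)

open Classical in
/-- the matrix of the coboundary of the vertices -/
noncomputable def MP : Matrix (II T) V F :=
  Matrix.of fun i x => (if i.1.2 = x then 1 else 0) - (if i.1.1 = x then 1 else 0)

/-- the third vertex -/
noncomputable def th (p : PP T) : V := p.2.choose

theorem th_spec (p : PP T) : T.f p.1.1 p.1.2 (th T p) := p.2.choose_spec.1

/-- the matrix of the boundary of the faces -/
noncomputable def MQ : Matrix (PP T) (II T) F :=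
  Matrix.of fun p i => dd T F p.1.1 p.1.2 i + dd T F p.1.2 (th T p) i + dd T F (th T p) p.1.1 i

open Classical in
theorem sum_single (g : II T → F) (p : V × V) :
    ∑ i : II T, (if i.1 = p then (1 : F) else 0) * g i =
      if h : T.Adj p.1 p.2 ∧ p.1 < p.2 then g ⟨p, h⟩ else 0 := by
  by_cases h : T.Adj p.1 p.2 ∧ p.1 < p.2
  · rw [dif_pos h, Finset.sum_eq_single (⟨p, h⟩ : II T)]
    · simp
    · intro b _ hb
      have : b.1 ≠ p := fun h' => hb (Subtype.ext h')
      simp [this]
    · intro h'
      exact absurd (Finset.mem_univ _) h'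
  · rw [dif_neg h]
    apply Finset.sum_eq_zero
    intro i _
    have : i.1 ≠ p := by
      rintro rfl
      exact h i.2
    simp [this]

open Classical in
theorem sum_dd (g : V → V → F) (hg : ∀ u v, T.Adj u v → g v u = - g u v) {a b : V}
    (h : T.Adj a b) : ∑ i : II T, dd T F a b i * g i.1.1 i.1.2 = g a b := by
  have h1 := sum_single T F (fun i : II T => g i.1.1 i.1.2) (a, b)
  have h2 := sum_single T F (fun i : II T => g i.1.1 i.1.2) (b, a)
  simp only [dd, sub_mul, Finset.sum_sub_distrib]
  simp only at h1 h2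
  rw [h1, h2]
  rcases lt_or_gt_of_ne (T.adj_ne h) with hl | hl
  · rw [dif_pos ⟨h, hl⟩, dif_neg (fun h' => absurd h'.2 (not_lt.2 hl.le)), sub_zero]
  · rw [dif_neg (fun h' => absurd h'.2 (not_lt.2 hl.le)), dif_pos ⟨T.adj_symm h, hl⟩,
      hg a b h]
    ring

theorem mulVec_MP (x : V → F) (i : II T) : (MP T F).mulVec x i = x i.1.2 - x i.1.1 := by
  classical
  simp only [Matrix.mulVec, dotProduct, MP, Matrix.of_apply, sub_mul, Finset.sum_sub_distrib,
    ite_mul, one_mul, zero_mul, Finset.sum_ite_eq, Finset.mem_univ, if_true]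

theorem mulVec_MQ (g : V → V → F) (hg : ∀ u v, T.Adj u v → g v u = - g u v) (p : PP T) :
    (MQ T F).mulVec (fun i : II T => g i.1.1 i.1.2) p =
      g p.1.1 p.1.2 + g p.1.2 (th T p) + g (th T p) p.1.1 := by
  have h := th_spec T p
  simp only [Matrix.mulVec, dotProduct, MQ, Matrix.of_apply, add_mul, Finset.sum_add_distrib]
  rw [sum_dd T F g hg (adj1 h), sum_dd T F g hg (adj2 h), sum_dd T F g hg (adj3 h)]

theorem MQ_MP : MQ T F * MP T F = 0 := by
  ext p x
  have key := mulVec_MQ T F (fun u v => (Pi.single x (1 : F) : V → F) v - (Pi.single x (1 : F) : V → F) u)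
    (fun u v _ => by ring) p
  have h2 : (fun i : II T => (Pi.single x (1 : F) : V → F) i.1.2 - (Pi.single x (1 : F) : V → F) i.1.1) =
      (MP T F).mulVec (Pi.single x 1) := by
    ext i
    rw [mulVec_MP]
  rw [h2, Matrix.mulVec_mulVec, Matrix.mulVec_single_one] at key
  simp only [Matrix.col_apply, Matrix.zero_apply] at key ⊢
  rw [key]
  ring

open Classical in
/-- a face contains exactly one time the dart -/
theorem cnt_face {a b : V} (h : T.Adj a b) (p : PP T) :
    (if (p.1.1, p.1.2) = (a, b) then (1 : F) else 0) + (if (p.1.2, th T p) = (a, b) then 1 else 0) +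
      (if (th T p, p.1.1) = (a, b) then 1 else 0) = if p = rep T h then 1 else 0 := by
  have hf := th_spec T p
  obtain ⟨n1, n2, n3⟩ := fnd hf
  by_cases e1 : (p.1.1, p.1.2) = (a, b)
  · obtain ⟨h1, h2⟩ := Prod.mk.inj e1
    subst h1 h2
    have e2 : (p.1.2, th T p) ≠ (p.1.1, p.1.2) := fun h' => n1 (Prod.mk.inj h').1.symm
    have e3 : (th T p, p.1.1) ≠ (p.1.1, p.1.2) := fun h' => n3 (Prod.mk.inj h').1
    rw [if_pos rfl, if_neg e2, if_neg e3, if_pos (rep_self T p h).symm]
    ring
  · by_cases e2 : (p.1.2, th T p) = (a, b)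
    · obtain ⟨h1, h2⟩ := Prod.mk.inj e2
      subst h1 h2
      have e3 : (th T p, p.1.1) ≠ (p.1.2, th T p) := fun h' => n2 (Prod.mk.inj h').1.symm
      have e4 : p = rep T h := (rep_eq T (T.cyc hf) p (Or.inr (Or.inr rfl))).symm
      rw [if_neg e1, if_pos rfl, if_neg e3, if_pos e4]
      ring
    · by_cases e3 : (th T p, p.1.1) = (a, b)
      · obtain ⟨h1, h2⟩ := Prod.mk.inj e3
        subst h1 h2
        have e4 : p = rep T h := (rep_eq T (T.cyc (T.cyc hf)) p (Or.inr (Or.inl rfl))).symm
        rw [if_neg e1, if_neg e2, if_pos rfl, if_pos e4]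
        ring
      · have e4 : p ≠ rep T h := by
          intro h'
          obtain ⟨w, hw⟩ := h
          rcases rep_spec T hw with h1 | h1 | h1
          · rw [← h'] at h1
            exact e1 h1
          · rw [← h'] at h1
            have h2 : p.1.1 = b := congrArg Prod.fst h1
            have h3 : p.1.2 = w := congrArg Prod.snd h1
            have hf' := hf
            rw [h2, h3] at hf'
            have h4 : th T p = a := T.uniq hf' (T.cyc hw)
            exact e3 (by rw [h4, h2])
          · rw [← h'] at h1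
            have h2 : p.1.1 = w := congrArg Prod.fst h1
            have h3 : p.1.2 = a := congrArg Prod.snd h1
            have hf' := hf
            rw [h2, h3] at hf'
            have h4 : th T p = b := T.uniq hf' (T.cyc (T.cyc hw))
            exact e2 (by rw [h4, h3])
        rw [if_neg e1, if_neg e2, if_neg e3, if_neg e4]
        ring

theorem mulVec_MQt (y : PP T → F) (i : II T) :
    (MQ T F).transpose.mulVec y i = y (rep T i.2.1) - y (rep T (T.adj_symm i.2.1)) := by
  classical
  have h1 := fun p : PP T => cnt_face T F i.2.1 p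
  have h2 := fun p : PP T => cnt_face T F (T.adj_symm i.2.1) p
  have h3 : ∀ p : PP T, MQ T F p i = (if p = rep T i.2.1 then (1 : F) else 0) -
      (if p = rep T (T.adj_symm i.2.1) then 1 else 0) := by
    intro p
    rw [← h1 p, ← h2 p]
    simp only [MQ, Matrix.of_apply, dd]
    have e : ∀ x y : V, (if i.1 = (x, y) then (1 : F) else 0) =
        if (x, y) = (i.1.1, i.1.2) then 1 else 0 := by
      intro x y
      apply if_congr _ rfl rfl
      constructor
      · intro h
        rw [← h]
      · intro h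
        rw [h]
    have e' : ∀ x y : V, (if i.1 = (x, y) then (1 : F) else 0) =
        if (y, x) = (i.1.2, i.1.1) then 1 else 0 := by
      intro x y
      apply if_congr _ rfl rfl
      constructor
      · intro h
        rw [h]
      · intro h
        obtain ⟨h5, h6⟩ := Prod.mk.inj h
        exact Prod.ext h6.symm h5.symm
    rw [e p.1.1 p.1.2, e' p.1.2 p.1.1, e p.1.2 (th T p), e' (th T p) p.1.2,
      e (th T p) p.1.1, e' p.1.1 (th T p)]
    ring
  simp only [Matrix.mulVec, dotProduct, Matrix.transpose_apply]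
  simp only [h3, sub_mul, Finset.sum_sub_distrib, ite_mul, one_mul, zero_mul, Finset.sum_ite_eq',
    Finset.mem_univ, if_true]

open Classical in
theorem mulVec_MPt (c : V → V → F) (hc : ∀ u v, T.Adj u v → c v u = - c u v) (v : V) :
    (MP T F).transpose.mulVec (fun i : II T => c i.1.1 i.1.2) v =
      - ∑ w, (if T.Adj v w then c v w else 0) := by
  simp only [Matrix.mulVec, dotProduct, Matrix.transpose_apply, MP, Matrix.of_apply, sub_mul,
    Finset.sum_sub_distrib, ite_mul, one_mul, zero_mul]
  have h1 : ∀ G : V × V → F, ∑ i : II T, G i.1 =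
      ∑ u, ∑ w, if T.Adj u w ∧ u < w then G (u, w) else 0 := by
    intro G
    rw [← Fintype.sum_prod_type' (f := fun u w => if T.Adj u w ∧ u < w then G (u, w) else 0),
      ← Finset.sum_filter]
    exact (Finset.sum_subtype _ (fun p => by simp) G).symm
  rw [h1 (fun p => if p.2 = v then c p.1 p.2 else 0), h1 (fun p => if p.1 = v then c p.1 p.2 else 0)]
  have h2 : ∑ u, ∑ w, (if T.Adj u w ∧ u < w then (if (u, w).2 = v then c (u, w).1 (u, w).2 else 0)
      else 0) = ∑ u, if T.Adj u v ∧ u < v then c u v else 0 := by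
    apply Finset.sum_congr rfl
    intro u _
    rw [Finset.sum_eq_single v]
    · simp
    · intro b _ hb
      simp [hb]
    · intro h
      exact absurd (Finset.mem_univ _) h
  have h3 : ∑ u, ∑ w, (if T.Adj u w ∧ u < w then (if (u, w).1 = v then c (u, w).1 (u, w).2 else 0)
      else 0) = ∑ w, if T.Adj v w ∧ v < w then c v w else 0 := by
    rw [Finset.sum_eq_single v]
    · simp
    · intro b _ hb
      simp [hb]
    · intro h
      exact absurd (Finset.mem_univ _) h
  rw [h2, h3, ← Finset.sum_sub_distrib, ← Finset.sum_neg_distrib]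
  apply Finset.sum_congr rfl
  intro w _
  by_cases h : T.Adj v w
  · have h' := T.adj_symm h
    rcases lt_or_gt_of_ne (T.adj_ne h) with hl | hl
    · rw [if_neg (fun h4 => absurd h4.2 (not_lt.2 hl.le)), if_pos ⟨h, hl⟩, if_pos h]
      ring
    · rw [if_pos ⟨h', hl⟩, if_neg (fun h4 => absurd h4.2 (not_lt.2 hl.le)), if_pos h, hc v w h]
      ring
  · have h' : ¬ T.Adj w v := fun h4 => h (T.adj_symm h4)
    rw [if_neg (fun h4 => h' h4.1), if_neg (fun h4 => h h4.1), if_neg h]
    ring

end

theorem const_of_conn {V X : Type} (T : Tri V) (hc : T.graph.Connected) (x : V → X)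
    (h : ∀ u v, T.Adj u v → x u = x v) (u v : V) : x u = x v := by
  obtain ⟨p⟩ := hc.preconnected u v
  induction p with
  | nil => rfl
  | cons h' _ ih => exact (h _ _ h').trans ih

theorem exa (lin : LinStmt) (cnt : CntStmt) : ExaStmt := by
  classical
  intro F _ V _ T hc ht
  let _ : LinearOrder V := LinearOrder.lift' (Fintype.equivFin V) (Fintype.equivFin V).injective
  obtain ⟨c1, c2⟩ := cnt V T
  have hcard : Fintype.card V + Fintype.card (PP T) = Fintype.card (II T) + 2 := by
    unfold Tri.Tight at ht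
    rw [← Nat.card_eq_fintype_card, ← Nat.card_eq_fintype_card, ← Nat.card_eq_fintype_card]
    have e1 : Nat.card (II T) = Nat.card {p : V × V // T.Adj p.1 p.2 ∧ p.1 < p.2} := rfl
    have e2 : Nat.card (PP T) = Nat.card {p : V × V // ∃ w, T.f p.1 p.2 w ∧ p.1 < p.2 ∧ p.1 < w} :=
      rfl
    rw [e1, e2]
    omega
  have kP : ∀ x : V → F, (MP T F).mulVec x = 0 → ∀ u v, x u = x v := by
    intro x hx
    apply const_of_conn T hc x
    have h1 : ∀ i : II T, x i.1.2 = x i.1.1 := by
      intro i
      have := congrFun hx i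
      rw [mulVec_MP] at this
      exact sub_eq_zero.1 this
    intro u v h
    rcases lt_or_gt_of_ne (T.adj_ne h) with hl | hl
    · exact (h1 ⟨(u, v), h, hl⟩).symm
    · exact h1 ⟨(v, u), T.adj_symm h, hl⟩
  have kQ : ∀ y : PP T → F, (MQ T F).transpose.mulVec y = 0 → ∀ p q, y p = y q := by
    intro y hy
    have h1 : ∀ i : II T, y (rep T i.2.1) = y (rep T (T.adj_symm i.2.1)) := by
      intro i
      have := congrFun hy i
      rw [mulVec_MQt] at this
      exact sub_eq_zero.1 this
    have h2 : ∀ u v (h : T.Adj u v), y (rep T h) = y (rep T (T.adj_symm h)) := by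
      intro u v h
      rcases lt_or_gt_of_ne (T.adj_ne h) with hl | hl
      · exact h1 ⟨(u, v), h, hl⟩
      · exact (h1 ⟨(v, u), T.adj_symm h, hl⟩).symm
    -- constant around each vertex
    have h3 : ∀ u v w (hv : T.Adj u v) (hw : T.Adj u w), y (rep T hv) = y (rep T hw) := by
      intro u v w hv hw
      have key : ∀ w, Relation.ReflTransGen (T.f u) v w → ∀ hw : T.Adj u w,
          y (rep T hv) = y (rep T hw) := by
        intro w hr
        induction hr with
        | refl => intro hw; rfl
        | tail _ hs ih =>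
          rename_i b c
          intro hw
          rw [ih (adj1 hs)]
          have e1 : rep T (adj1 hs) = rep T (adj3 hs) := (rep_cyc T hs).trans (rep_cyc T (T.cyc hs))
          rw [e1]
          exact h2 _ _ (adj3 hs)
      exact key w (T.link hv hw) hw
    -- a value for every vertex
    let z : V → Option F := fun u => if h : ∃ v, T.Adj u v then some (y (rep T h.choose_spec)) else none
    have hz : ∀ u v (h : T.Adj u v), z u = some (y (rep T h)) := by
      intro u v h
      have h' : ∃ v, T.Adj u v := ⟨v, h⟩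
      simp only [z]
      rw [dif_pos h', h3 u _ _ h'.choose_spec h]
    have hz2 : ∀ u v, z u = z v := by
      apply const_of_conn T hc z
      intro u v h
      rw [hz u v h, hz v u (T.adj_symm h), h2 u v h]
    intro p q
    obtain ⟨w, hw, _⟩ := p.2
    obtain ⟨w', hw', _⟩ := q.2
    have e1 := hz _ _ (adj1 hw)
    have e2 := hz _ _ (adj1 hw')
    rw [hz2 _ q.1.1, e2, rep_self T p (adj1 hw), rep_self T q (adj1 hw')] at e1
    exact (Option.some.inj e1).symm
  obtain ⟨r1, r2⟩ := lin F (II T) V (PP T) (MP T F) (MQ T F) (MQ_MP T F) kP kQ hcard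
  constructor
  · intro g hg hf
    obtain ⟨x, hx⟩ := r1 (fun i => g i.1.1 i.1.2) (by
      ext p
      rw [mulVec_MQ T F g hg p]
      exact hf _ _ _ (th_spec T p))
    refine ⟨x, ?_⟩
    have h1 : ∀ i : II T, g i.1.1 i.1.2 = x i.1.2 - x i.1.1 := by
      intro i
      have := congrFun hx i
      rw [mulVec_MP] at this
      exact this.symm
    intro u v h
    rcases lt_or_gt_of_ne (T.adj_ne h) with hl | hl
    · exact h1 ⟨(u, v), h, hl⟩
    · have h2 := h1 ⟨(v, u), T.adj_symm h, hl⟩
      simp only at h2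
      have h3 := hg u v h
      rw [h3] at h2
      rw [← neg_neg (g u v), h2]
      ring
  · intro c hc' hs
    obtain ⟨y, hy⟩ := r2 (fun i => c i.1.1 i.1.2) (by
      ext v
      rw [mulVec_MPt T F c hc' v, hs v]
      simp)
    refine ⟨fun u v => if h : T.Adj u v then y (rep T h) else 0, ?_, ?_⟩
    · intro u v w h
      simp only
      rw [dif_pos (adj1 h), dif_pos (adj2 h), rep_cyc T h]
    · have h1 : ∀ i : II T, c i.1.1 i.1.2 = y (rep T i.2.1) - y (rep T (T.adj_symm i.2.1)) := by
        intro i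
        have := congrFun hy i
        rw [mulVec_MQt] at this
        exact this.symm
      intro u v h
      simp only
      rw [dif_pos h, dif_pos (T.adj_symm h)]
      rcases lt_or_gt_of_ne (T.adj_ne h) with hl | hl
      · exact h1 ⟨(u, v), h, hl⟩
      · have h2 := h1 ⟨(v, u), T.adj_symm h, hl⟩
        simp only at h2
        have h3 := hc' u v h
        rw [h3] at h2
        rw [← neg_neg (c u v), h2]
        ring

end Pool.Agent.PDN.H21
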