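import Mathlib
import Pool.Agent.PDN.Stmts

/-!
# PDN: GSU (general sufficiency)
-/

set_option autoImplicit false

namespace Pool.Agent.PDN.H21

open Pool.Agent.PDN

/-- the number of the darts is the sum of the degrees -/
theorem card_darts {V : Type} [Fintype V] (T : Tri V) :
    Nat.card {p : V × V // T.Adj p.1 p.2} = ∑ v, T.deg v := by
  classical
  have e : {p : V × V // T.Adj p.1 p.2} ≃ Σ v : V, {w : V // T.Adj v w} :=
    { toFun := fun p => ⟨p.1.1, ⟨p.1.2, p.2⟩⟩
      invFun := fun q => ⟨(q.1, q.2.1), q.2.2⟩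
      left_inv := fun p => rfl
      right_inv := fun q => rfl }
  rw [Nat.card_congr e, Nat.card_sigma]
  rfl

/-- the sum over the chain -/
theorem sum_shift (m : ℕ) (e : ℕ → ℕ) (hm : 1 ≤ m) :
    ∑ j ∈ Finset.range m, (4 + (if 0 < j then e (j - 1) else 0) +
      (if j + 1 < m then e j else 0)) = 4 * m + 2 * ∑ j ∈ Finset.range (m - 1), e j := by
  obtain ⟨m', rfl⟩ : ∃ m', m = m' + 1 := ⟨m - 1, by omega⟩
  rw [Finset.sum_add_distrib, Finset.sum_add_distrib]
  have h1 : ∑ j ∈ Finset.range (m' + 1), (if 0 < j then e (j - 1) else 0) =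
      ∑ j ∈ Finset.range m', e j := by
    rw [Finset.sum_range_succ']
    simp
  have h2 : ∑ j ∈ Finset.range (m' + 1), (if j + 1 < m' + 1 then e j else 0) =
      ∑ j ∈ Finset.range m', e j := by
    rw [Finset.sum_range_succ]
    simp only [lt_self_iff_false, if_false, add_zero]
    apply Finset.sum_congr rfl
    intro j hj
    have := Finset.mem_range.1 hj
    rw [if_pos (by omega)]
  rw [h1, h2]
  simp only [Finset.sum_const, Finset.card_range, smul_eq_mul, Nat.add_sub_cancel]
  ring

theorem gsu (tpl : TplStmt) (chn : ChnStmt) : GsuStmt := by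
  intro m y e hm hmy
  obtain ⟨V, hV, T, hcon, hdeg⟩ := chn m y e hm hmy
  have hsum : ∑ v, T.deg v = (Finset.univ.val.map T.deg).sum := rfl
  have hcard : (Finset.univ.val.map T.deg).card = Fintype.card V := by
    rw [Multiset.card_map]
    rfl
  have hT : T.Tight := by
    unfold Tri.Tight
    rw [card_darts, hsum, Nat.card_eq_fintype_card, ← hcard, hdeg]
    have key : ((Multiset.range m).map (fun j => 4 + (if 0 < j then e (j - 1) else 0) +
        (if j + 1 < m then e j else 0))).sum = 4 * m + 2 * ∑ j ∈ Finset.range (m - 1), e j :=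
      sum_shift m e hm
    simp only [Multiset.sum_add, Multiset.card_add, Multiset.sum_replicate,
      Multiset.card_replicate, Multiset.card_map, Multiset.card_range, smul_eq_mul]
    rw [key, Finset.sum_add_distrib]
    simp only [Finset.sum_const, Finset.card_range, smul_eq_mul]
    omega
  refine ⟨V, hV, T.graph, tpl V T hcon hT, ?_⟩
  rw [← hdeg]
  rfl

end Pool.Agent.PDN.H21
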