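import Mathlib
import Pool.Agent.PDN.Stmts

/-!
# PDN: LIN, linear algebra
-/

set_option autoImplicit false

namespace Pool.Agent.PDN.H21

open Pool.Agent.PDN Module

/-- the kernel of a matrix is contained in the constants: the rank is at least the number of
columns minus one -/
theorem rank_ge {F : Type} [Field F] {I V : Type} [Fintype I] [Fintype V] [DecidableEq V]
    [DecidableEq I]
    (P : Matrix I V F) (h : ∀ x : V → F, P.mulVec x = 0 → ∀ u v, x u = x v) :
    Fintype.card V ≤ P.rank + 1 := by
  have h1 := LinearMap.finrank_range_add_finrank_ker P.mulVecLin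
  rw [Module.finrank_fintype_fun_eq_card] at h1
  have h2 : finrank F (LinearMap.ker P.mulVecLin) ≤ 1 := by
    have hle : LinearMap.ker P.mulVecLin ≤ Submodule.span F {(fun _ => 1 : V → F)} := by
      intro x hx
      rw [Submodule.mem_span_singleton]
      have hx' : P.mulVec x = 0 := by
        have := LinearMap.mem_ker.1 hx
        rwa [Matrix.mulVecLin_apply] at this
      by_cases hV : Nonempty V
      · obtain ⟨v⟩ := hV
        refine ⟨x v, ?_⟩
        ext u
        simp [h x hx' v u]
      · refine ⟨0, ?_⟩
        ext u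
        exact absurd ⟨u⟩ hV
    calc finrank F (LinearMap.ker P.mulVecLin)
        ≤ finrank F (Submodule.span F {(fun _ => 1 : V → F)}) := Submodule.finrank_mono hle
      _ ≤ 1 := by
          have := finrank_span_le_card (R := F) ({(fun _ => 1 : V → F)} : Set (V → F))
          simpa using this
  have h3 : P.rank = finrank F (LinearMap.range P.mulVecLin) := rfl
  omega

/-- exactness from the dimensions -/
theorem exact_of {F : Type} [Field F] {I V Φ : Type} [Fintype I] [Fintype V] [Fintype Φ]
    [DecidableEq I] [DecidableEq V] [DecidableEq Φ] (P : Matrix I V F) (Q : Matrix Φ I F)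
    (hQP : Q * P = 0) (hP : Fintype.card V ≤ P.rank + 1) (hQ : Fintype.card Φ ≤ Q.rank + 1)
    (hc : Fintype.card V + Fintype.card Φ = Fintype.card I + 2) (g : I → F)
    (hg : Q.mulVec g = 0) : ∃ x, P.mulVec x = g := by
  have h1 := LinearMap.finrank_range_add_finrank_ker Q.mulVecLin
  rw [Module.finrank_fintype_fun_eq_card] at h1
  have h3 : P.rank = finrank F (LinearMap.range P.mulVecLin) := rfl
  have h4 : Q.rank = finrank F (LinearMap.range Q.mulVecLin) := rfl
  have hle : LinearMap.range P.mulVecLin ≤ LinearMap.ker Q.mulVecLin := by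
    rintro _ ⟨x, rfl⟩
    rw [LinearMap.mem_ker, Matrix.mulVecLin_apply, Matrix.mulVecLin_apply, Matrix.mulVec_mulVec,
      hQP, Matrix.zero_mulVec]
  have heq : LinearMap.range P.mulVecLin = LinearMap.ker Q.mulVecLin := by
    apply Submodule.eq_of_le_of_finrank_le hle
    omega
  have hg' : g ∈ LinearMap.range P.mulVecLin := by
    rw [heq, LinearMap.mem_ker, Matrix.mulVecLin_apply]
    exact hg
  obtain ⟨x, hx⟩ := hg'
  exact ⟨x, by rw [← hx, Matrix.mulVecLin_apply]⟩

theorem lin : LinStmt := by
  intro F _ I V Φ _ _ _ _ _ _ P Q hQP hP hQ hc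
  have rP := rank_ge P hP
  have rQt := rank_ge Q.transpose hQ
  constructor
  · intro g hg
    refine exact_of P Q hQP rP ?_ hc g hg
    rwa [Matrix.rank_transpose] at rQt
  · intro c hc'
    refine exact_of Q.transpose P.transpose ?_ rQt ?_ (by omega) c hc'
    · rw [← Matrix.transpose_mul, hQP, Matrix.transpose_zero]
    · rwa [Matrix.rank_transpose]

end Pool.Agent.PDN.H21
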