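import Mathlib
import Pool.Agent.PDN.Stmts
import Pool.Agent.Helper21_PDN.Exa
import Pool.Agent.Helper21_PDN.Lin
import Pool.Agent.Helper10_PDN.Cnt
import Pool.Agent.Helper19_PDN.COL
import Pool.Agent.Helper25_PDN.Sgn
import Pool.Agent.Helper81_PDN.LNK
import Pool.Agent.Helper43_PDN.Oct
import Pool.Agent.Helper69_PDN.Bnd
import Pool.Agent.Helper43_PDN.Ari
import Pool.Agent.Helper76_PDN.Gne
import Pool.Agent.Helper17_PDN.Nec
import Pool.Agent.Helper56_PDN.TPL
import Pool.Agent.Helper17_PDN.Sub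
import Pool.Agent.Helper69_PDN.Str
import Pool.Agent.Helper81_PDN.BIP
import Pool.Agent.Helper46_PDN.Eul
import Pool.Agent.Helper65_PDN.CHN
import Pool.Agent.Helper15_PDN.SAR
import Pool.Agent.Helper9_PDN.SUF
import Pool.Agent.Helper21_PDN.Gsu

/-!
# PDN: assembly
-/

set_option autoImplicit false

namespace Pool.Agent.PDN.H21

open Pool.Agent.PDN

theorem exa' : ExaStmt := exa lin H10.cnt

theorem sgn' : SgnStmt := H25.sgn exa' (H19.col exa')

theorem bnd' : BndStmt := H69.bnd H81.lnk (H43.oct H81.lnk)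

theorem gne' : GneStmt := H76.gne sgn' bnd' H46.eul

theorem nec' : NecStmt := H17.nec gne' H43.ari

theorem str' : StrStmt := H69.str H17.sub

theorem chn' : ChnStmt := H65.chn H81.bip str'

theorem gsu' : GsuStmt := gsu H56.tpl chn'

theorem suf' : SufStmt := H9.suf gsu' H15.sar

theorem pdn_final (n : ℕ) (hn : 1 ≤ n) (a : Fin n → ℕ) :
    Realizable (seq a) ↔ ∃ S : Finset (Fin n), ∑ i ∈ S, a i = ∑ i ∈ Sᶜ, a i :=
  ⟨nec' n a, suf' n a hn⟩

end Pool.Agent.PDN.H21
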