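import Pool.Agent.Helper21_PDN.Asm

/-!
# Degree sequences of planar graphs encode PARTITION

`Planar G` (in `Pool.Agent.PDN.Defs`): `G` has a rotation system of genus zero. `Realizable s`:
the finite multiset `s` is the family of the degrees of a planar finite simple graph. For natural
numbers `a 0, .., a (n - 1)` put `K = 1 + ∑ a`, `M = 12 (n + 1) ^ 2`; the sequence `seq a`
consists of the entries `M (K + a i)`, of `n` entries `M K`, of two entries `M (2 n + 1) K` and of
`N` entries `4`, where `N` is half the sum of the other entries minus `6 n`.

The sequence is the degree sequence of a planar graph if and only if the numbers `a i` can be
divided into two parts with equal sums.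

Necessity: the sum of the entries is `6 m - 12` for the number `m` of the entries, so a planar
realization is a triangulation; all degrees are divisible by four, so the triangulation maps to
the octahedron (a branched covering), which gives signs `s v = ± 1` of the vertices such that the
two vertices opposite to every edge have opposite signs; counting around the vertices of
degree four, the signed sum of the large degrees is at most `3 (2 n + 2) (2 n + 1) < M`.
Sufficiency: an explicit triangulation, a bipyramid with strips of vertices of degree four.
-/

set_option autoImplicit false

namespace Pool.Agent.PDN.H21.PartitionEncoding

open Pool.Agent.PDN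

/-- The sequence `seq a` is the degree sequence of a planar graph if and only if the numbers `a i`
can be divided into two parts with equal sums. -/
theorem result (n : ℕ) (hn : 1 ≤ n) (a : Fin n → ℕ) :
    Realizable (seq a) ↔ ∃ S : Finset (Fin n), ∑ i ∈ S, a i = ∑ i ∈ Sᶜ, a i :=
  Pool.Agent.PDN.H21.pdn_final n hn a

end Pool.Agent.PDN.H21.PartitionEncoding
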