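import Mathlib
import Pool.Agent.PDN.Stmts
import Pool.Agent.Helper46_PDN.Eul
import Pool.Agent.Helper56_PDN.TPL

/-!
# PDN: sanity checks of the definition of planarity

`Planar` (rotation system of genus zero) satisfies the usual edge bound, so the complete graph on
five vertices is not planar; the complete graph on four vertices is planar.
-/

set_option autoImplicit false

namespace Pool.Agent.PDN.H21

open Pool.Agent.PDN

/-- the edge bound: a planar graph of minimal degree at least two with `C` components has at most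
`3 |V| - 6 C` edges -/
theorem edge_bound {V : Type} [Fintype V] {G : SimpleGraph V} (hpl : Planar G)
    (hdeg : ∀ v, 2 ≤ Nat.card (G.neighborSet v)) :
    Nat.card G.edgeSet + 6 * Nat.card G.ConnectedComponent ≤ 3 * Nat.card V := by
  classical
  obtain ⟨ρ, h1, h2, hE⟩ := hpl
  have hfin : Finite V := inferInstance
  letI : DecidableRel G.Adj := Classical.decRel _
  have hdc : ∀ v, Nat.card (G.neighborSet v) = G.degree v := fun v => by
    rw [Nat.card_eq_fintype_card, G.card_neighborSet_eq_degree]
  have hface := H46.face_ge ρ h1 h2 hdeg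
  -- counts
  have hD1 : Fintype.card G.Dart = ∑ v, Nat.card (G.neighborSet v) := by
    rw [G.dart_card_eq_sum_degrees]
    exact Finset.sum_congr rfl fun v _ => (hdc v).symm
  have hD2 : Fintype.card G.Dart = 2 * Nat.card G.edgeSet := by
    rw [G.dart_card_eq_twice_card_edges, Nat.card_eq_fintype_card, ← G.edgeFinset_card]
  have hiso : Nat.card {v : V // ∀ w, ¬ G.Adj v w} = 0 := by
    rw [Finite.card_eq_zero_iff]
    constructor
    rintro ⟨v, hv⟩
    have h5 : Nat.card (G.neighborSet v) = 0 := by
      rw [Finite.card_eq_zero_iff]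
      exact ⟨fun w => hv w w.2⟩
    have := hdeg v
    omega
  have hVn : Nat.card V = Fintype.card V := Nat.card_eq_fintype_card
  -- the map to the faces
  haveI hfq : Finite (Faces ρ) :=
    inferInstanceAs (Finite (Quotient (Equiv.Perm.SameCycle.setoid (facePerm ρ))))
  letI : Fintype (Faces ρ) := Fintype.ofFinite _
  obtain ⟨π, hπ⟩ : ∃ π : G.Dart → Faces ρ, π = fun d => Quotient.mk _ d := ⟨_, rfl⟩
  have hπe : ∀ d e, π d = π e ↔ (facePerm ρ).SameCycle d e := by
    intro d e
    rw [hπ]
    exact Quotient.eq (r := Equiv.Perm.SameCycle.setoid (facePerm ρ))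
  have hπs : ∀ x : Faces ρ, ∃ d, π d = x := by
    intro x
    obtain ⟨d, hd⟩ := Quotient.exists_rep x
    exact ⟨d, by rw [hπ]; exact hd⟩
  have hsame1 : ∀ d, π (facePerm ρ d) = π d := fun d =>
    (hπe _ _).2 (Equiv.Perm.SameCycle.rfl.apply_left)
  have htrip : ∀ d, ({d, facePerm ρ d, facePerm ρ (facePerm ρ d)} : Finset G.Dart).card = 3 := by
    intro d
    rw [Finset.card_eq_three]
    refine ⟨d, facePerm ρ d, facePerm ρ (facePerm ρ d), (hface d).1.symm, (hface d).2.symm, ?_, rfl⟩
    exact (hface _).1.symm
  have hsub : ∀ d, ({d, facePerm ρ d, facePerm ρ (facePerm ρ d)} : Finset G.Dart) ⊆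
      Finset.univ.filter fun e => π e = π d := by
    intro d e he
    rw [Finset.mem_filter]
    refine ⟨Finset.mem_univ _, ?_⟩
    simp only [Finset.mem_insert, Finset.mem_singleton] at he
    rcases he with rfl | rfl | rfl
    · rfl
    · exact hsame1 d
    · rw [hsame1, hsame1]
  have hge : ∀ x : Faces ρ, 3 ≤ (Finset.univ.filter fun e => π e = x).card := by
    intro x
    obtain ⟨d, rfl⟩ := hπs x
    rw [← htrip d]
    exact Finset.card_le_card (hsub d)
  have hcount : Fintype.card G.Dart = ∑ x : Faces ρ, (Finset.univ.filter fun e => π e = x).card := by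
    rw [← Finset.card_univ]
    exact Finset.card_eq_sum_card_fiberwise fun _ _ => Finset.mem_univ _
  have hFn : Nat.card (Faces ρ) = Fintype.card (Faces ρ) := Nat.card_eq_fintype_card
  have h3F : 3 * Fintype.card (Faces ρ) ≤ Fintype.card G.Dart := by
    rw [hcount]
    calc 3 * Fintype.card (Faces ρ) = ∑ _x : Faces ρ, 3 := by
          rw [Finset.sum_const, Finset.card_univ, smul_eq_mul, mul_comm]
      _ ≤ _ := Finset.sum_le_sum fun x _ => hge x
  omega

/-- the complete graph on five vertices is not planar -/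
theorem not_planar_five : ¬ Planar (⊤ : SimpleGraph (Fin 5)) := by
  intro h
  have h1 := edge_bound h (fun v => by
    rw [Nat.card_eq_fintype_card, SimpleGraph.card_neighborSet_eq_degree]
    simp)
  have h2 : Nat.card (⊤ : SimpleGraph (Fin 5)).edgeSet = 10 := by
    rw [Nat.card_eq_fintype_card, ← SimpleGraph.edgeFinset_card,
      SimpleGraph.card_edgeFinset_top_eq_card_choose_two]
    rfl
  have h3 : 1 ≤ Nat.card (⊤ : SimpleGraph (Fin 5)).ConnectedComponent := by
    haveI : Nonempty (⊤ : SimpleGraph (Fin 5)).ConnectedComponent :=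
      ⟨SimpleGraph.connectedComponentMk _ 0⟩
    exact Nat.card_pos
  have h4 : Nat.card (Fin 5) = 5 := Nat.card_fin 5
  rw [h2, h4] at h1
  omega

/-- the faces of the tetrahedron -/
def tet (u v w : Fin 4) : Prop :=
  (u, v, w) ∈ ([(0, 1, 2), (1, 2, 0), (2, 0, 1), (0, 2, 3), (2, 3, 0), (3, 0, 2), (0, 3, 1),
    (3, 1, 0), (1, 0, 3), (1, 3, 2), (3, 2, 1), (2, 1, 3)] : List (Fin 4 × Fin 4 × Fin 4))

instance (u v w : Fin 4) : Decidable (tet u v w) := by
  unfold tet
  infer_instance

/-- the tetrahedron -/
def tetTri : Tri (Fin 4) where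
  f := tet
  cyc := by intro u v w; revert u v w; decide
  uniq := by intro u v w w'; revert u v w w'; decide
  opp := by intro u v w; revert u v w; decide
  ne := by intro u v w; revert u v w; decide
  link := by
    intro u v w hv hw
    have key : ∀ u v w : Fin 4, (∃ z, tet u v z) → (∃ z, tet u w z) →
        v = w ∨ tet u v w ∨ ∃ z, tet u v z ∧ tet u z w := by decide
    rcases key u v w hv hw with h | h | ⟨z, h, h'⟩
    · rw [h]
    · exact Relation.ReflTransGen.single h
    · exact (Relation.ReflTransGen.single h).tail h'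

/-- the complete graph on four vertices is planar -/
theorem planar_four : Planar (⊤ : SimpleGraph (Fin 4)) := by
  have hadj : ∀ u v : Fin 4, (∃ w, tet u v w) ↔ u ≠ v := by decide
  have hG : tetTri.graph = (⊤ : SimpleGraph (Fin 4)) := by
    ext u v
    exact hadj u v
  rw [← hG]
  refine H56.tpl (Fin 4) tetTri ?_ ?_
  · rw [hG]
    exact SimpleGraph.connected_top
  · unfold Tri.Tight
    have h1 : Nat.card {p : Fin 4 × Fin 4 // tetTri.Adj p.1 p.2} =
        Nat.card {p : Fin 4 × Fin 4 // p.1 ≠ p.2} :=
      Nat.card_congr (Equiv.subtypeEquivRight fun p => hadj p.1 p.2)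
    rw [h1, Nat.card_eq_fintype_card, Nat.card_eq_fintype_card]
    decide

end Pool.Agent.PDN.H21
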